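import Pool.Agent.R547.CB.Matroids

set_option autoImplicit false

/-!
# The common bases
-/

namespace Pool.Agent.R547.CB

open Finset

theorem lab_all : ∀ l : Fin 6, l = 0 ∨ l = 1 ∨ l = 2 ∨ l = 3 ∨ l = 4 ∨ l = 5 := by decide

theorem lab10 : ∀ l : Fin 6, (![0, 0, 1, 2, 1, 2] l : Fin 3) = 0 → l = 0 ∨ l = 1 := by decide

theorem lab11 : ∀ l : Fin 6, (![0, 0, 1, 2, 1, 2] l : Fin 3) = 1 → l = 2 ∨ l = 4 := by decide

theorem lab12 : ∀ l : Fin 6, (![0, 0, 1, 2, 1, 2] l : Fin 3) = 2 → l = 3 ∨ l = 5 := by decide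

theorem lab20 : ∀ l : Fin 6, (![2, 0, 1, 2, 0, 1] l : Fin 3) = 0 → l = 1 ∨ l = 4 := by decide

theorem lab21 : ∀ l : Fin 6, (![2, 0, 1, 2, 0, 1] l : Fin 3) = 1 → l = 2 ∨ l = 5 := by decide

theorem lab2n : ∀ l : Fin 6, l ≠ 0 → l ≠ 3 →
    (![2, 0, 1, 2, 0, 1] l : Fin 3) ∈ ({0, 1} : Finset (Fin 3)) := by decide

/-- The common base coded by `A`. -/
def BB {m : ℕ} (A : Finset (Fin (2 * m))) : Finset (El m) :=
  Finset.univ.filter (fun x => if x.1 ∈ A then (x.2 = 1 ∨ x.2 = 2 ∨ x.2 = 3)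
    else (x.2 = 0 ∨ x.2 = 4 ∨ x.2 = 5))

theorem mem_BB {m : ℕ} (A : Finset (Fin (2 * m))) (x : El m) :
    x ∈ BB A ↔ if x.1 ∈ A then (x.2 = 1 ∨ x.2 = 2 ∨ x.2 = 3)
      else (x.2 = 0 ∨ x.2 = 4 ∨ x.2 = 5) := by
  simp [BB]

theorem BB_inj {m : ℕ} (A : Finset (Fin (2 * m))) :
    Set.InjOn cl1 ((BB A : Finset (El m)) : Set (El m)) := by
  rintro ⟨i, l⟩ hx ⟨j, k⟩ hy h
  rw [Finset.mem_coe, mem_BB] at hx hy
  simp only [cl1, Prod.mk.injEq] at h
  obtain ⟨rfl, h⟩ := h
  simp only at hx hy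
  by_cases hA : i ∈ A
  · simp only [hA, if_true] at hx hy
    rcases hx with rfl | rfl | rfl <;> rcases hy with rfl | rfl | rfl <;> simp_all
  · simp only [hA, if_false] at hx hy
    rcases hx with rfl | rfl | rfl <;> rcases hy with rfl | rfl | rfl <;> simp_all

theorem BB_filter_pp {m : ℕ} (A : Finset (Fin (2 * m))) : (BB A).filter pp = U A := by
  ext ⟨i, l⟩
  rw [Finset.mem_filter, mem_BB, mem_U]
  unfold pp
  simp only
  by_cases hA : i ∈ A
  · simp only [hA, if_true]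
    fin_cases l <;> simp
  · simp only [hA, if_false]
    fin_cases l <;> simp

theorem BB_ind2 {m : ℕ} (N : Set (Finset (Fin (2 * m)))) (A : Finset (Fin (2 * m))) :
    Ind2 N (BB A) ↔ ¬ (A ∈ N ∧ A.card = m) := by
  unfold Ind2 PavInd
  rw [BB_filter_pp, card_U]
  constructor
  · rintro ⟨-, -, h⟩ ⟨h1, h2⟩
    exact h ⟨A, h1, h2, rfl⟩
  · intro h
    refine ⟨?_, le_refl _, ?_⟩
    · rintro ⟨i, l⟩ hx ⟨j, k⟩ hy hxy
      rw [Finset.mem_coe, Finset.mem_filter, mem_BB] at hx hy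
      unfold pp at hx hy
      simp only [cl2, Prod.mk.injEq] at hxy
      obtain ⟨rfl, hxy⟩ := hxy
      simp only at hx hy
      by_cases hA : i ∈ A
      · simp only [hA, if_true] at hx hy
        rcases hx with ⟨rfl | rfl | rfl, hx⟩ <;> rcases hy with ⟨rfl | rfl | rfl, hy⟩ <;> simp_all
      · simp only [hA, if_false] at hx hy
        rcases hx with ⟨rfl | rfl | rfl, hx⟩ <;> rcases hy with ⟨rfl | rfl | rfl, hy⟩ <;> simp_all
    · rintro ⟨A', hA', hc, hU⟩
      have := U_injective hU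
      subst this
      exact h ⟨hA', hc⟩

theorem card_le_of_inj {m : ℕ} (I : Finset (El m)) (h : Set.InjOn cl1 (I : Set (El m))) :
    I.card ≤ 6 * m := by
  have h1 := Finset.card_le_card_of_injOn cl1 (t := Finset.univ) (fun x _ => Finset.mem_univ _) h
  simp only [Finset.card_univ, Fintype.card_prod, Fintype.card_fin] at h1
  omega

theorem card_BB {m : ℕ} (A : Finset (Fin (2 * m))) : (BB A).card = 6 * m := by
  have h1 : (BB A).image cl1 = Finset.univ := by
    ext ⟨i, c⟩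
    simp only [Finset.mem_image, Finset.mem_univ, iff_true]
    by_cases hA : i ∈ A
    · refine ⟨(i, ![1, 2, 3] c), ?_, ?_⟩
      · rw [mem_BB]; simp only [hA, if_true]; fin_cases c <;> simp
      · simp only [cl1, Prod.mk.injEq, true_and]; fin_cases c <;> simp
    · refine ⟨(i, ![0, 4, 5] c), ?_, ?_⟩
      · rw [mem_BB]; simp only [hA, if_false]; fin_cases c <;> simp
      · simp only [cl1, Prod.mk.injEq, true_and]; fin_cases c <;> simp
  rw [← Finset.card_image_of_injOn (BB_inj A), h1]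
  simp only [Finset.card_univ, Fintype.card_prod, Fintype.card_fin]
  omega

theorem card_filter_not_pp_le {m : ℕ} (I : Finset (El m))
    (h : Set.InjOn cl2 ((I.filter (fun x => ¬ pp x) : Finset (El m)) : Set (El m))) :
    (I.filter (fun x => ¬ pp x)).card ≤
      ((Finset.univ : Finset (Fin (2 * m))) ×ˢ ({0, 1} : Finset (Fin 3))).card := by
  refine Finset.card_le_card_of_injOn cl2 ?_ h
  rintro ⟨i, l⟩ hx
  rw [Finset.mem_coe, Finset.mem_filter] at hx
  unfold pp at hx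
  rw [Finset.mem_coe, Finset.mem_product]
  refine ⟨Finset.mem_univ _, ?_⟩
  have h2 := hx.2
  simp only [cl2]
  fin_cases l <;> simp_all

theorem card_prod01 {m : ℕ} :
    ((Finset.univ : Finset (Fin (2 * m))) ×ˢ ({0, 1} : Finset (Fin 3))).card = 4 * m := by
  rw [Finset.card_product, Finset.card_univ, Fintype.card_fin]
  have : ({0, 1} : Finset (Fin 3)).card = 2 := by decide
  rw [this]; ring

theorem card_le_of_ind2 {m : ℕ} (N : Set (Finset (Fin (2 * m)))) (I : Finset (El m))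
    (h : Ind2 N I) : I.card ≤ 6 * m := by
  have h1 := card_filter_not_pp_le I h.1
  rw [card_prod01] at h1
  have h2 := h.2.1
  have h3 := Finset.card_filter_add_card_filter_not (s := I) (p := pp)
  omega

theorem M1_base {m : ℕ} (A : Finset (Fin (2 * m))) :
    (M1 m).IsBase ((BB A : Finset (El m)) : Set (El m)) := by
  classical
  rw [Matroid.isBase_iff_maximal_indep]
  refine ⟨(M1_indep _).2 (BB_inj A), ?_⟩
  intro J hJ hle
  have hJ' : J = ((J.toFinset : Finset (El m)) : Set (El m)) := by simp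
  rw [hJ'] at hJ
  have h1 := card_le_of_inj _ ((M1_indep _).1 hJ)
  have h2 : BB A ⊆ J.toFinset := by
    intro x hx
    rw [Set.mem_toFinset]
    exact hle (by simpa using hx)
  have h3 := Finset.eq_of_subset_of_card_le h2 (by rw [card_BB]; exact h1)
  rw [hJ', ← h3]

theorem M2_base {m : ℕ} (hm : 1 ≤ m) (N : Set (Finset (Fin (2 * m)))) (A : Finset (Fin (2 * m)))
    (hA : ¬ (A ∈ N ∧ A.card = m)) :
    (M2 hm N).IsBase ((BB A : Finset (El m)) : Set (El m)) := by
  classical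
  rw [Matroid.isBase_iff_maximal_indep]
  refine ⟨(M2_indep hm N _).2 ((BB_ind2 N A).2 hA), ?_⟩
  intro J hJ hle
  have hJ' : J = ((J.toFinset : Finset (El m)) : Set (El m)) := by simp
  rw [hJ'] at hJ
  have h1 := card_le_of_ind2 _ _ ((M2_indep hm N _).1 hJ)
  have h2 : BB A ⊆ J.toFinset := by
    intro x hx
    rw [Set.mem_toFinset]
    exact hle (by simpa using hx)
  have h3 := Finset.eq_of_subset_of_card_le h2 (by rw [card_BB]; exact h1)
  rw [hJ', ← h3]

/-- Every common base is coded by a set `A` which is not excluded. -/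
theorem common_base {m : ℕ} (hm : 1 ≤ m) (N : Set (Finset (Fin (2 * m)))) (B : Set (El m))
    (hB1 : (M1 m).IsBase B) (hB2 : (M2 hm N).IsBase B) :
    ∃ A : Finset (Fin (2 * m)), B = ((BB A : Finset (El m)) : Set (El m)) ∧
      ¬ (A ∈ N ∧ A.card = m) := by
  classical
  have hBf : B = ((B.toFinset : Finset (El m)) : Set (El m)) := by simp
  set F := B.toFinset with hF
  have hcard : F.card = 6 * m := by
    have h1 := hB1.ncard_eq_ncard_of_isBase (M1_base (∅ : Finset (Fin (2 * m))))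
    rw [hBf, Set.ncard_coe_finset, Set.ncard_coe_finset, card_BB] at h1
    exact h1
  have hI1 : Set.InjOn cl1 (F : Set (El m)) := by
    have := hB1.indep
    rw [hBf] at this
    exact (M1_indep _).1 this
  have hI2 : Ind2 N F := by
    have := hB2.indep
    rw [hBf] at this
    exact (M2_indep hm N _).1 this
  have hs1 : F.image cl1 = Finset.univ := by
    apply Finset.eq_univ_of_card
    rw [Finset.card_image_of_injOn hI1, hcard]
    simp only [Fintype.card_prod, Fintype.card_fin]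
    omega
  have hnp : (F.filter (fun x => ¬ pp x)).card = 4 * m := by
    have h1 := card_filter_not_pp_le F hI2.1
    rw [card_prod01] at h1
    have h2 := hI2.2.1
    have h3 := Finset.card_filter_add_card_filter_not (s := F) (p := pp)
    omega
  have hs2 : (F.filter (fun x => ¬ pp x)).image cl2 =
      (Finset.univ : Finset (Fin (2 * m))) ×ˢ ({0, 1} : Finset (Fin 3)) := by
    apply Finset.eq_of_subset_of_card_le
    · intro y hy
      rw [Finset.mem_image] at hy
      obtain ⟨⟨i, l⟩, hx, rfl⟩ := hy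
      rw [Finset.mem_filter] at hx
      unfold pp at hx
      rw [Finset.mem_product]
      refine ⟨Finset.mem_univ _, ?_⟩
      exact lab2n l (fun h => hx.2 (Or.inl h)) (fun h => hx.2 (Or.inr h))
    · rw [card_prod01, Finset.card_image_of_injOn hI2.1, hnp]
  -- surjectivity statements
  have hsur1 : ∀ i : Fin (2 * m), ∀ c : Fin 3, ∃ l : Fin 6, (i, l) ∈ F ∧
      ![0, 0, 1, 2, 1, 2] l = c := by
    intro i c
    have : ((i, c) : Fin (2 * m) × Fin 3) ∈ F.image cl1 := by rw [hs1]; exact Finset.mem_univ _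
    rw [Finset.mem_image] at this
    obtain ⟨⟨j, l⟩, hx, hxy⟩ := this
    simp only [cl1, Prod.mk.injEq] at hxy
    obtain ⟨rfl, hxy⟩ := hxy
    exact ⟨l, hx, hxy⟩
  have hsur2 : ∀ i : Fin (2 * m), ∀ c : Fin 3, (c = 0 ∨ c = 1) → ∃ l : Fin 6, (i, l) ∈ F ∧
      l ≠ 0 ∧ l ≠ 3 ∧ ![2, 0, 1, 2, 0, 1] l = c := by
    intro i c hc
    have : ((i, c) : Fin (2 * m) × Fin 3) ∈ (F.filter (fun x => ¬ pp x)).image cl2 := by
      rw [hs2, Finset.mem_product]
      exact ⟨Finset.mem_univ _, by simpa using hc⟩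
    rw [Finset.mem_image] at this
    obtain ⟨⟨j, l⟩, hx, hxy⟩ := this
    rw [Finset.mem_filter] at hx
    unfold pp at hx
    simp only [cl2, Prod.mk.injEq] at hxy
    obtain ⟨rfl, hxy⟩ := hxy
    refine ⟨l, hx.1, fun h => hx.2 (Or.inl h), fun h => hx.2 (Or.inr h), hxy⟩
  have hinj1 : ∀ i : Fin (2 * m), ∀ l l' : Fin 6, (i, l) ∈ F → (i, l') ∈ F →
      (![0, 0, 1, 2, 1, 2] l : Fin 3) = ![0, 0, 1, 2, 1, 2] l' → l = l' := by
    intro i l l' h h' he
    have := hI1 (by simpa using h) (by simpa using h') (show cl1 (i, l) = cl1 (i, l') by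
      simp only [cl1, he])
    exact (Prod.ext_iff.1 this).2
  have hinj2 : ∀ i : Fin (2 * m), ∀ l l' : Fin 6, (i, l) ∈ F → (i, l') ∈ F →
      l ≠ 0 → l ≠ 3 → l' ≠ 0 → l' ≠ 3 →
      (![2, 0, 1, 2, 0, 1] l : Fin 3) = ![2, 0, 1, 2, 0, 1] l' → l = l' := by
    intro i l l' h h' h0 h3 h0' h3' he
    have := hI2.1 (by
      rw [Finset.mem_coe, Finset.mem_filter]
      exact ⟨h, fun hp => hp.elim h0 h3⟩) (by
      rw [Finset.mem_coe, Finset.mem_filter]
      exact ⟨h', fun hp => hp.elim h0' h3'⟩) (show cl2 (i, l) = cl2 (i, l') by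
      simp only [cl2, he])
    exact (Prod.ext_iff.1 this).2
  have key : ∀ i : Fin (2 * m),
      (((i, 0) : El m) ∈ F ∨ ((i, 1) : El m) ∈ F) ∧ (((i, 2) : El m) ∈ F ∨ ((i, 4) : El m) ∈ F) ∧
      (((i, 3) : El m) ∈ F ∨ ((i, 5) : El m) ∈ F) ∧ (((i, 1) : El m) ∈ F ∨ ((i, 4) : El m) ∈ F) ∧
      (((i, 2) : El m) ∈ F ∨ ((i, 5) : El m) ∈ F) ∧
      ¬ (((i, 0) : El m) ∈ F ∧ ((i, 1) : El m) ∈ F) ∧
      ¬ (((i, 2) : El m) ∈ F ∧ ((i, 4) : El m) ∈ F) ∧
      ¬ (((i, 3) : El m) ∈ F ∧ ((i, 5) : El m) ∈ F) ∧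
      ¬ (((i, 1) : El m) ∈ F ∧ ((i, 4) : El m) ∈ F) ∧
      ¬ (((i, 2) : El m) ∈ F ∧ ((i, 5) : El m) ∈ F) := by
    intro i
    refine ⟨?_, ?_, ?_, ?_, ?_, ?_, ?_, ?_, ?_, ?_⟩
    · obtain ⟨l, hl, h⟩ := hsur1 i 0
      rcases lab10 l h with rfl | rfl
      · exact Or.inl hl
      · exact Or.inr hl
    · obtain ⟨l, hl, h⟩ := hsur1 i 1
      rcases lab11 l h with rfl | rfl
      · exact Or.inl hl
      · exact Or.inr hl
    · obtain ⟨l, hl, h⟩ := hsur1 i 2
      rcases lab12 l h with rfl | rfl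
      · exact Or.inl hl
      · exact Or.inr hl
    · obtain ⟨l, hl, h0, h3, h⟩ := hsur2 i 0 (Or.inl rfl)
      rcases lab20 l h with rfl | rfl
      · exact Or.inl hl
      · exact Or.inr hl
    · obtain ⟨l, hl, h0, h3, h⟩ := hsur2 i 1 (Or.inr rfl)
      rcases lab21 l h with rfl | rfl
      · exact Or.inl hl
      · exact Or.inr hl
    · rintro ⟨h, h'⟩
      exact absurd (hinj1 i 0 1 h h' (by decide)) (by decide)
    · rintro ⟨h, h'⟩
      exact absurd (hinj1 i 2 4 h h' (by decide)) (by decide)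
    · rintro ⟨h, h'⟩
      exact absurd (hinj1 i 3 5 h h' (by decide)) (by decide)
    · rintro ⟨h, h'⟩
      exact absurd (hinj2 i 1 4 h h' (by decide) (by decide) (by decide) (by decide)
        (by decide)) (by decide)
    · rintro ⟨h, h'⟩
      exact absurd (hinj2 i 2 5 h h' (by decide) (by decide) (by decide) (by decide)
        (by decide)) (by decide)
  let A : Finset (Fin (2 * m)) := Finset.univ.filter (fun i => ((i, 1) : El m) ∈ F)
  have hFA : F = BB A := by
    ext ⟨i, l⟩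
    obtain ⟨k1, k2, k3, k4, k5, k6, k7, k8, k9, k10⟩ := key i
    have hA : i ∈ A ↔ ((i, 1) : El m) ∈ F := by simp [A]
    rw [mem_BB]
    simp only
    by_cases h1 : ((i, 1) : El m) ∈ F
    · have hA' : i ∈ A := hA.2 h1
      simp only [hA', if_true]
      have g0 : ((i, 0) : El m) ∉ F := fun h => k6 ⟨h, h1⟩
      have g4 : ((i, 4) : El m) ∉ F := fun h => k9 ⟨h1, h⟩
      have g2 : ((i, 2) : El m) ∈ F := k2.resolve_right g4
      have g5 : ((i, 5) : El m) ∉ F := fun h => k10 ⟨g2, h⟩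
      have g3 : ((i, 3) : El m) ∈ F := k3.resolve_right g5
      rcases lab_all l with rfl | rfl | rfl | rfl | rfl | rfl <;> simp [g0, h1, g2, g3, g4, g5]
    · have hA' : i ∉ A := fun h => h1 (hA.1 h)
      simp only [hA', if_false]
      have g0 : ((i, 0) : El m) ∈ F := k1.resolve_right h1
      have g4 : ((i, 4) : El m) ∈ F := k4.resolve_left h1
      have g2 : ((i, 2) : El m) ∉ F := fun h => k7 ⟨h, g4⟩
      have g5 : ((i, 5) : El m) ∈ F := k5.resolve_left g2
      have g3 : ((i, 3) : El m) ∉ F := fun h => k8 ⟨h, g5⟩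
      rcases lab_all l with rfl | rfl | rfl | rfl | rfl | rfl <;> simp [g0, h1, g2, g3, g4, g5]
  refine ⟨A, by rw [hBf, hFA], ?_⟩
  rw [hFA] at hI2
  exact (BB_ind2 N A).1 hI2

end Pool.Agent.R547.CB
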