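import Pool.Agent.R547.Orc.Defs

set_option autoImplicit false

/-!
# Maximum-weight `k`-subsets of common bases of two matroids: definitions
-/

namespace Pool.Agent.R547.CB

/-- The independence oracles of two matroids: the question `(false, X)` asks whether `X` is
independent in `M₁`, the question `(true, X)` asks whether `X` is independent in `M₂`. -/
noncomputable def indepOracle {S : Type} (M₁ M₂ : Matroid S) (q : Bool × Finset S) : Bool :=
  open Classical in decide ((if q.1 then M₂ else M₁).Indep (q.2 : Set S))

/-- `B` is a common base of `M₁` and `M₂`. -/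
def IsCommonBase {S : Type} (M₁ M₂ : Matroid S) (B : Set S) : Prop :=
  M₁.IsBase B ∧ M₂.IsBase B

/-- `X` is `k`-feasible: it has `k` elements and is contained in a common base. -/
def Feasible {S : Type} (M₁ M₂ : Matroid S) (k : ℕ) (X : Finset S) : Prop :=
  X.card = k ∧ ∃ B : Set S, IsCommonBase M₁ M₂ B ∧ (X : Set S) ⊆ B

/-- `X` is a `k`-feasible set of maximum weight. -/
def IsOptimal {S : Type} (M₁ M₂ : Matroid S) (w : S → ℕ) (k : ℕ) (X : Finset S) : Prop :=
  Feasible M₁ M₂ k X ∧ ∀ Y : Finset S, Feasible M₁ M₂ k Y → ∑ e ∈ Y, w e ≤ ∑ e ∈ X, w e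

/-- The instances of the problem: two matroids on the ground set `S` with a common base, and
`k` is at most the common rank. -/
def IsInstance {S : Type} (M₁ M₂ : Matroid S) (k : ℕ) : Prop :=
  M₁.E = Set.univ ∧ M₂.E = Set.univ ∧
    ∃ B : Finset S, IsCommonBase M₁ M₂ (B : Set S) ∧ k ≤ B.card

end Pool.Agent.R547.CB
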