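import Pool.Agent.R547.CB.Bases
import Pool.Agent.R547.Orc.Basic

set_option autoImplicit false

/-!
# The lower bound
-/

namespace Pool.Agent.R547.CB

open Finset Pool.Agent.R547.Orc

/-- The weights. -/
def wt {m : ℕ} (x : El m) : ℕ := ![0, 3, 0, 0, 2, 2] x.2

theorem wt_eq : ∀ l : Fin 6, (![0, 3, 0, 0, 2, 2] l : ℕ) =
    3 * (if l = 1 then 1 else 0) + 2 * (if (l = 4 ∨ l = 5) then 1 else 0) := by decide

theorem wt_sum {m : ℕ} (X : Finset (El m)) : ∑ x ∈ X, wt x =
    3 * (X.filter (fun x => x.2 = 1)).card + 2 * (X.filter (fun x => x.2 = 4 ∨ x.2 = 5)).card := by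
  rw [Finset.card_filter, Finset.card_filter, Finset.mul_sum, Finset.mul_sum,
    ← Finset.sum_add_distrib]
  refine Finset.sum_congr rfl (fun x _ => ?_)
  exact wt_eq x.2

/-- The elements of label `1` over `A`. -/
def E1 {m : ℕ} (A : Finset (Fin (2 * m))) : Finset (El m) := A.image (fun i => (i, 1))

theorem card_E1 {m : ℕ} (A : Finset (Fin (2 * m))) : (E1 A).card = A.card :=
  Finset.card_image_of_injective _ (fun _ _ h => (Prod.ext_iff.1 h).1)

/-- The elements of labels `4` and `5` over the complement of `A`. -/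
def E45 {m : ℕ} (A : Finset (Fin (2 * m))) : Finset (El m) := Aᶜ ×ˢ {4, 5}

theorem card_E45 {m : ℕ} (A : Finset (Fin (2 * m))) : (E45 A).card + 2 * A.card = 4 * m := by
  unfold E45
  rw [Finset.card_product]
  have h1 : ({4, 5} : Finset (Fin 6)).card = 2 := by decide
  have h2 := Finset.card_compl_add_card A
  rw [Fintype.card_fin] at h2
  rw [h1]
  omega

theorem decode {m : ℕ} (A : Finset (Fin (2 * m))) (X : Finset (El m)) (hX : X ⊆ BB A)
    (hc : X.card = 3 * m) (hw : 7 * m ≤ ∑ x ∈ X, wt x) :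
    A.card = m ∧ ∀ i, i ∈ A ↔ ((i, 1) : El m) ∈ X := by
  rw [wt_sum] at hw
  have h1 : X.filter (fun x => x.2 = 1) ⊆ E1 A := by
    rintro ⟨i, l⟩ hx
    rw [Finset.mem_filter] at hx
    obtain ⟨hx, hl⟩ := hx
    simp only at hl
    subst hl
    have := (mem_BB A _).1 (hX hx)
    unfold E1
    rw [Finset.mem_image]
    refine ⟨i, ?_, rfl⟩
    by_contra hA
    simp [hA] at this
  have h2 : X.filter (fun x => x.2 = 4 ∨ x.2 = 5) ⊆ E45 A := by
    rintro ⟨i, l⟩ hx
    rw [Finset.mem_filter] at hx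
    obtain ⟨hx, hl⟩ := hx
    simp only at hl
    have := (mem_BB A _).1 (hX hx)
    unfold E45
    rw [Finset.mem_product]
    refine ⟨?_, by simpa using hl⟩
    rw [Finset.mem_compl]
    intro hA
    simp only [hA, if_true] at this
    rcases hl with rfl | rfl <;> simp at this
  have h3 := Finset.card_le_card h1
  have h4 := Finset.card_le_card h2
  rw [card_E1] at h3
  have h5 := card_E45 A
  have h6 : (X.filter (fun x => x.2 = 1)).card + (X.filter (fun x => x.2 = 4 ∨ x.2 = 5)).card ≤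
      X.card := by
    rw [← Finset.card_union_of_disjoint]
    · apply Finset.card_le_card
      intro x hx
      rw [Finset.mem_union, Finset.mem_filter, Finset.mem_filter] at hx
      exact hx.elim (fun h => h.1) (fun h => h.1)
    · rw [Finset.disjoint_filter]
      intro x _ h h'
      rw [h] at h'
      exact absurd h' (by decide)
  have h7 : A.card = m := by omega
  refine ⟨h7, ?_⟩
  have h8 : X.filter (fun x => x.2 = 1) = E1 A := by
    apply Finset.eq_of_subset_of_card_le h1
    rw [card_E1]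
    omega
  intro i
  have h9 : ((i, 1) : El m) ∈ X.filter (fun x => x.2 = 1) ↔ ((i, 1) : El m) ∈ E1 A := by rw [h8]
  rw [Finset.mem_filter] at h9
  unfold E1 at h9
  rw [Finset.mem_image] at h9
  constructor
  · intro hi
    exact (h9.2 ⟨i, hi, rfl⟩).1
  · intro hi
    obtain ⟨j, hj, hji⟩ := h9.1 ⟨hi, rfl⟩
    obtain rfl : j = i := (Prod.ext_iff.1 hji).1
    exact hj

/-- The optimal set of the hidden instance. -/
def XX {m : ℕ} (A : Finset (Fin (2 * m))) : Finset (El m) := E1 A ∪ E45 A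

theorem XX_disj {m : ℕ} (A : Finset (Fin (2 * m))) : Disjoint (E1 A) (E45 A) := by
  rw [Finset.disjoint_left]
  intro x hx hx'
  unfold E1 at hx
  unfold E45 at hx'
  rw [Finset.mem_image] at hx
  obtain ⟨i, hi, rfl⟩ := hx
  rw [Finset.mem_product] at hx'
  exact absurd hi (Finset.mem_compl.1 hx'.1)

theorem XX_card {m : ℕ} (A : Finset (Fin (2 * m))) (hA : A.card = m) :
    (XX A).card = 3 * m := by
  unfold XX
  rw [Finset.card_union_of_disjoint (XX_disj A), card_E1]
  have := card_E45 A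
  omega

theorem XX_sub {m : ℕ} (A : Finset (Fin (2 * m))) : XX A ⊆ BB A := by
  intro x hx
  unfold XX at hx
  rw [Finset.mem_union] at hx
  rw [mem_BB]
  rcases hx with hx | hx
  · unfold E1 at hx
    rw [Finset.mem_image] at hx
    obtain ⟨i, hi, rfl⟩ := hx
    simp [hi]
  · unfold E45 at hx
    rw [Finset.mem_product, Finset.mem_compl] at hx
    obtain ⟨h1, h2⟩ := hx
    simp only [h1, if_false]
    right
    simpa using h2

theorem XX_weight {m : ℕ} (A : Finset (Fin (2 * m))) (hA : A.card = m) :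
    ∑ x ∈ XX A, wt x = 7 * m := by
  unfold XX
  rw [Finset.sum_union (XX_disj A)]
  have h1 : ∑ x ∈ E1 A, wt x = 3 * m := by
    have : ∀ x ∈ E1 A, wt x = 3 := by
      intro x hx
      unfold E1 at hx
      rw [Finset.mem_image] at hx
      obtain ⟨i, hi, rfl⟩ := hx
      rfl
    rw [Finset.sum_congr rfl this, Finset.sum_const, card_E1, hA, smul_eq_mul]
    ring
  have h2 : ∑ x ∈ E45 A, wt x = 2 * (E45 A).card := by
    have : ∀ x ∈ E45 A, wt x = 2 := by
      rintro ⟨i, l⟩ hx
      unfold E45 at hx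
      rw [Finset.mem_product] at hx
      have h3 : l = 4 ∨ l = 5 := by simpa using hx.2
      rcases h3 with rfl | rfl <;> rfl
    rw [Finset.sum_congr rfl this, Finset.sum_const, smul_eq_mul]
    ring
  have := card_E45 A
  omega

/-- The instance in which exactly the set `A` is not excluded. -/
def hid {m : ℕ} (hm : 1 ≤ m) (A : Finset (Fin (2 * m))) : Matroid (El m) := M2 hm {A}ᶜ

/-- The reference instance: all transversals with `m` ones are excluded. -/
def ref0 {m : ℕ} (hm : 1 ≤ m) : Matroid (El m) := M2 hm Set.univ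

theorem hid_instance {m : ℕ} (hm : 1 ≤ m) (A : Finset (Fin (2 * m))) :
    IsInstance (M1 m) (hid hm A) (3 * m) := by
  refine ⟨rfl, rfl, BB A, ⟨M1_base A, M2_base hm _ A ?_⟩, ?_⟩
  · rintro ⟨h, -⟩
    exact h rfl
  · rw [card_BB]; omega

theorem ref0_instance {m : ℕ} (hm : 1 ≤ m) : IsInstance (M1 m) (ref0 hm) (3 * m) := by
  refine ⟨rfl, rfl, BB Finset.univ, ⟨M1_base _, M2_base hm _ Finset.univ ?_⟩, ?_⟩
  · rintro ⟨-, h⟩
    rw [Finset.card_univ, Fintype.card_fin] at h
    omega
  · rw [card_BB]; omega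

theorem optimal_decode {m : ℕ} (hm : 1 ≤ m) (A : Finset (Fin (2 * m))) (hA : A.card = m)
    (X : Finset (El m)) (hX : IsOptimal (M1 m) (hid hm A) wt (3 * m) X) (i : Fin (2 * m)) :
    i ∈ A ↔ ((i, 1) : El m) ∈ X := by
  obtain ⟨⟨hc, B, ⟨hB1, hB2⟩, hXB⟩, hopt⟩ := hX
  obtain ⟨A', rfl, hA'⟩ := common_base hm _ B hB1 hB2
  have h1 := hopt (XX A) ⟨XX_card A hA, ((BB A : Finset (El m)) : Set (El m)),
    ⟨M1_base A, M2_base hm _ A (fun h => h.1 rfl)⟩, Finset.coe_subset.2 (XX_sub A)⟩
  rw [XX_weight A hA] at h1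
  obtain ⟨h2, h3⟩ := decode A' X (Finset.coe_subset.1 hXB) hc h1
  have h4 : A' = A := by
    by_contra hne
    exact hA' ⟨hne, h2⟩
  subst h4
  exact h3 i

theorem oracle_agree {m : ℕ} (hm : 1 ≤ m) (A : Finset (Fin (2 * m)))
    (q : Bool × Finset (El m)) (hq : ¬ (q.1 = true ∧ q.2.filter pp = U A)) :
    indepOracle (M1 m) (hid hm A) q = indepOracle (M1 m) (ref0 hm) q := by
  unfold indepOracle
  rcases q with ⟨b, I⟩
  cases b with
  | false => rfl
  | true =>
    simp only [true_and] at hq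
    have h : (hid hm A).Indep (I : Set (El m)) ↔ (ref0 hm).Indep (I : Set (El m)) := by
      unfold hid ref0
      rw [M2_indep, M2_indep]
      unfold Ind2 PavInd
      refine and_congr_right (fun _ => and_congr_right (fun _ => not_congr ?_))
      constructor
      · rintro ⟨A', -, h1, h2⟩
        exact ⟨A', Set.mem_univ _, h1, h2⟩
      · rintro ⟨A', -, h1, h2⟩
        refine ⟨A', ?_, h1, h2⟩
        rintro rfl
        exact hq h2
    simp only [if_true]
    exact decide_eq_decide.2 h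

theorem main (m : ℕ) (hm : 1 ≤ m) (μ : PMF (Algo (Bool × Finset (El m)) Bool (Finset (El m))))
    (b : ℕ)
    (hb : ∀ T ∈ μ.support, ∀ M₁ M₂ : Matroid (El m), IsInstance M₁ M₂ (3 * m) →
      T.cost (indepOracle M₁ M₂) ≤ b)
    (hμ : ∀ M₁ M₂ : Matroid (El m), IsInstance M₁ M₂ (3 * m) →
      1 / 2 ≤ μ.toOuterMeasure {T | IsOptimal M₁ M₂ wt (3 * m) (T.output (indepOracle M₁ M₂))}) :
    4 ^ m ≤ 4 * m * (b + 1) := by
  classical
  have key := card_le_of_random (Finset.powersetCard m (Finset.univ : Finset (Fin (2 * m))))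
    (indepOracle (M1 m) (ref0 hm)) (fun A => indepOracle (M1 m) (hid hm A))
    (fun q A => q.1 = true ∧ q.2.filter pp = U A)
    (fun X A => ∀ i, i ∈ A ↔ ((i, 1) : El m) ∈ X)
    (fun A X => IsOptimal (M1 m) (hid hm A) wt (3 * m) X) 1
    (fun A _ q hq => oracle_agree hm A q hq)
    (fun A hA X hX => optimal_decode hm A (Finset.mem_powersetCard.1 hA).2 X hX)
    (by
      intro q D _ hD
      rw [Finset.card_le_one]
      intro A hA B hB
      exact U_injective ((hD A hA).2.symm.trans (hD B hB).2))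
    (by
      intro X D _ hD
      rw [Finset.card_le_one]
      intro A hA B hB
      ext i
      rw [hD A hA i, hD B hB i])
    μ b (fun T hT => hb T hT _ _ (ref0_instance hm)) (fun A _ => hμ _ _ (hid_instance hm A))
  rw [Finset.card_powersetCard, Finset.card_univ, Fintype.card_fin] at key
  have h1 := Nat.four_pow_le_two_mul_self_mul_centralBinom m (by omega)
  rw [Nat.centralBinom_eq_two_mul_choose] at h1
  calc 4 ^ m ≤ 2 * m * (2 * m).choose m := h1
    _ ≤ 2 * m * (2 * ((b + 1) * 1)) := Nat.mul_le_mul_left _ key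
    _ = 4 * m * (b + 1) := by ring

end Pool.Agent.R547.CB
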