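import Pool.Agent.R547.CB.Defs

set_option autoImplicit false

/-!
# The matroids of the lower bound
-/

namespace Pool.Agent.R547.CB

open Finset

theorem injOn_aug {α β : Type} [DecidableEq α] [DecidableEq β] (g : α → β) (I J : Finset α)
    (hI : Set.InjOn g (I : Set α)) (hJ : Set.InjOn g (J : Set α)) (h : I.card < J.card) :
    ∃ e ∈ J, e ∉ I ∧ Set.InjOn g ((insert e I : Finset α) : Set α) := by
  have h1 : (I.image g).card < (J.image g).card := by
    rw [Finset.card_image_of_injOn hI, Finset.card_image_of_injOn hJ]; exact h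
  obtain ⟨y, hy, hy'⟩ := Finset.exists_mem_notMem_of_card_lt_card h1
  rw [Finset.mem_image] at hy
  obtain ⟨e, he, rfl⟩ := hy
  refine ⟨e, he, fun hI' => hy' (Finset.mem_image_of_mem g hI'), ?_⟩
  rw [Finset.coe_insert, Set.injOn_insert]
  · refine ⟨hI, ?_⟩
    rintro ⟨x, hx, hxe⟩
    exact hy' (Finset.mem_image.2 ⟨x, by simpa using hx, hxe⟩)
  · intro hI'
    exact hy' (Finset.mem_image_of_mem g (by simpa using hI'))

/-- Independence in a sparse paving matroid of rank `r` with the circuit hyperplanes `N`. -/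
def PavInd {α : Type} (r : ℕ) (N : Finset α → Prop) (I : Finset α) : Prop :=
  I.card ≤ r ∧ ¬ N I

theorem pav_mono {α : Type} {r : ℕ} {N : Finset α → Prop}
    (hN1 : ∀ P, N P → P.card = r) {I J : Finset α} (hJ : PavInd r N J) (h : I ⊆ J) :
    PavInd r N I := by
  refine ⟨(Finset.card_le_card h).trans hJ.1, fun hI => hJ.2 ?_⟩
  have : I = J := Finset.eq_of_subset_of_card_le h (by rw [hN1 I hI]; exact hJ.1)
  rwa [← this]

theorem pav_aug {α : Type} [DecidableEq α] {r : ℕ} {N : Finset α → Prop}
    (hN1 : ∀ P, N P → P.card = r)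
    (hN2 : ∀ P Q, N P → N Q → P ≠ Q → (P ∩ Q).card + 2 ≤ r) {I J : Finset α}
    (hJ : PavInd r N J) (h : I.card < J.card) :
    ∃ e ∈ J, e ∉ I ∧ PavInd r N (insert e I) := by
  by_cases h1 : I.card + 1 < r
  · obtain ⟨e, he, he'⟩ := Finset.exists_mem_notMem_of_card_lt_card h
    refine ⟨e, he, he', ?_, fun hn => ?_⟩
    · rw [Finset.card_insert_of_notMem he']; omega
    · have := hN1 _ hn
      rw [Finset.card_insert_of_notMem he'] at this
      omega
  · have hJr := hJ.1
    have h2 : (J \ I).Nonempty := by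
      rw [← Finset.card_pos]
      have := Finset.card_le_card_sdiff_add_card (s := J) (t := I)
      omega
    by_cases h3 : (J \ I).card = 1
    · obtain ⟨e, he⟩ := Finset.card_eq_one.1 h3
      have heJ : e ∈ J \ I := by rw [he]; simp
      rw [Finset.mem_sdiff] at heJ
      refine ⟨e, heJ.1, heJ.2, ?_⟩
      have h4 : J ⊆ insert e I := by
        intro x hx
        by_cases hxI : x ∈ I
        · exact Finset.mem_insert_of_mem hxI
        · have : x ∈ J \ I := Finset.mem_sdiff.2 ⟨hx, hxI⟩
          rw [he, Finset.mem_singleton] at this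
          rw [this]; exact Finset.mem_insert_self _ _
      have h5 : J = insert e I := by
        apply Finset.eq_of_subset_of_card_le h4
        rw [Finset.card_insert_of_notMem heJ.2]
        omega
      rw [← h5]
      exact hJ
    · have h4 : 1 < (J \ I).card := by
        have := Finset.card_pos.2 h2
        omega
      obtain ⟨e, he, e', he', hne⟩ := Finset.one_lt_card.1 h4
      rw [Finset.mem_sdiff] at he he'
      by_contra hcon
      push Not at hcon
      have key : ∀ x, x ∈ J → x ∉ I → N (insert x I) := by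
        intro x hx hxI
        by_contra hn
        refine hcon x hx hxI ⟨?_, hn⟩
        rw [Finset.card_insert_of_notMem hxI]
        omega
      have h5 := key e he.1 he.2
      have h6 := key e' he'.1 he'.2
      have h7 : insert e I ≠ insert e' I := by
        intro heq
        have : e ∈ insert e' I := by rw [← heq]; exact Finset.mem_insert_self _ _
        rw [Finset.mem_insert] at this
        rcases this with h | h
        · exact hne h
        · exact he.2 h
      have h8 := hN2 _ _ h5 h6 h7
      have h9 : I ⊆ insert e I ∩ insert e' I := by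
        intro x hx
        simp [hx]
      have h10 := Finset.card_le_card h9
      omega

/-- The ground set: for each `i` the six elements `q = 0`, `e₁ = 1`, `e₂ = 2`, `e₃ = 3`,
`f₁ = 4`, `f₂ = 5`. -/
abbrev El (m : ℕ) : Type := Fin (2 * m) × Fin 6

/-- The classes of the first partition matroid. -/
def cl1 {m : ℕ} (x : El m) : Fin (2 * m) × Fin 3 := (x.1, ![0, 0, 1, 2, 1, 2] x.2)

/-- The classes of the partition matroid which is a summand of the second matroid. -/
def cl2 {m : ℕ} (x : El m) : Fin (2 * m) × Fin 3 := (x.1, ![2, 0, 1, 2, 0, 1] x.2)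

/-- The element belongs to the sparse paving part. -/
def pp {m : ℕ} (x : El m) : Prop := x.2 = 0 ∨ x.2 = 3

instance {m : ℕ} : DecidablePred (pp (m := m)) := fun x => by unfold pp; infer_instance

/-- The transversal of the sparse paving part coded by `A`. -/
def U {m : ℕ} (A : Finset (Fin (2 * m))) : Finset (El m) :=
  Finset.univ.image (fun i => (i, if i ∈ A then 3 else 0))

theorem mem_U {m : ℕ} (A : Finset (Fin (2 * m))) (x : El m) :
    x ∈ U A ↔ x.2 = if x.1 ∈ A then 3 else 0 := by
  unfold U
  rw [Finset.mem_image]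
  constructor
  · rintro ⟨i, -, rfl⟩; rfl
  · intro h
    exact ⟨x.1, Finset.mem_univ _, by ext <;> simp [h]⟩

theorem card_U {m : ℕ} (A : Finset (Fin (2 * m))) : (U A).card = 2 * m := by
  unfold U
  rw [Finset.card_image_of_injective _ (fun a b h => (Prod.ext_iff.1 h).1), Finset.card_univ,
    Fintype.card_fin]

theorem U_injective {m : ℕ} : Function.Injective (U (m := m)) := by
  intro A B h
  ext i
  have h1 : ((i, 3) : El m) ∈ U A ↔ ((i, 3) : El m) ∈ U B := by rw [h]
  rw [mem_U, mem_U] at h1
  by_cases hA : i ∈ A <;> by_cases hB : i ∈ B <;> simp_all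

theorem U_inter {m : ℕ} (A B : Finset (Fin (2 * m))) (hA : A.card = m) (hB : B.card = m)
    (hne : A ≠ B) : (U A ∩ U B).card + 2 ≤ 2 * m := by
  -- two positions where they differ
  have h1 : ∃ i ∈ A, i ∉ B := by
    by_contra hcon
    push Not at hcon
    exact hne (Finset.eq_of_subset_of_card_le hcon (by omega))
  have h2 : ∃ i ∈ B, i ∉ A := by
    by_contra hcon
    push Not at hcon
    exact hne (Finset.eq_of_subset_of_card_le hcon (by omega)).symm
  obtain ⟨i, hiA, hiB⟩ := h1
  obtain ⟨j, hjB, hjA⟩ := h2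
  have hij : i ≠ j := fun h => hjA (h ▸ hiA)
  have h3 : U A ∩ U B ⊆ ((U A).erase (i, 3)).erase (j, 0) := by
    intro x hx
    rw [Finset.mem_inter] at hx
    rw [Finset.mem_erase, Finset.mem_erase]
    refine ⟨?_, ?_, hx.1⟩
    · rintro rfl
      have := (mem_U _ _).1 hx.2
      simp [hjB] at this
    · rintro rfl
      have := (mem_U _ _).1 hx.2
      simp [hiB] at this
  have h4 := Finset.card_le_card h3
  have h5 : ((i, 3) : El m) ∈ U A := by rw [mem_U]; simp [hiA]
  have h6 : ((j, 0) : El m) ∈ (U A).erase (i, 3) := by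
    rw [Finset.mem_erase]
    refine ⟨?_, by rw [mem_U]; simp [hjA]⟩
    intro h
    exact hij (Prod.ext_iff.1 h).1.symm
  rw [Finset.card_erase_of_mem h6, Finset.card_erase_of_mem h5, card_U] at h4
  have h7 : 2 ≤ 2 * m := by
    have := i.2
    omega
  omega

/-- The excluded transversals. -/
def Exc {m : ℕ} (N : Set (Finset (Fin (2 * m)))) (P : Finset (El m)) : Prop :=
  ∃ A ∈ N, A.card = m ∧ P = U A

theorem Exc_card {m : ℕ} (N : Set (Finset (Fin (2 * m)))) (P : Finset (El m)) (h : Exc N P) :
    P.card = 2 * m := by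
  obtain ⟨A, -, -, rfl⟩ := h
  exact card_U A

theorem Exc_inter {m : ℕ} (N : Set (Finset (Fin (2 * m)))) (P Q : Finset (El m)) (h : Exc N P)
    (h' : Exc N Q) (hne : P ≠ Q) : (P ∩ Q).card + 2 ≤ 2 * m := by
  obtain ⟨A, -, hA, rfl⟩ := h
  obtain ⟨B, -, hB, rfl⟩ := h'
  exact U_inter A B hA hB (fun h => hne (by rw [h]))

/-- Independence in the second matroid. -/
def Ind2 {m : ℕ} (N : Set (Finset (Fin (2 * m)))) (I : Finset (El m)) : Prop :=
  Set.InjOn cl2 ((I.filter (fun x => ¬ pp x) : Finset (El m)) : Set (El m)) ∧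
    PavInd (2 * m) (Exc N) (I.filter pp)

theorem ind2_mono {m : ℕ} (N : Set (Finset (Fin (2 * m)))) {I J : Finset (El m)}
    (hJ : Ind2 N J) (h : I ⊆ J) : Ind2 N I := by
  refine ⟨hJ.1.mono ?_, pav_mono (Exc_card N) hJ.2 (Finset.filter_subset_filter _ h)⟩
  rw [Finset.coe_subset]
  exact Finset.filter_subset_filter _ h

theorem ind2_aug {m : ℕ} (N : Set (Finset (Fin (2 * m)))) {I J : Finset (El m)}
    (hI : Ind2 N I) (hJ : Ind2 N J) (h : I.card < J.card) :
    ∃ e ∈ J, e ∉ I ∧ Ind2 N (insert e I) := by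
  have hIc := Finset.card_filter_add_card_filter_not (s := I) (p := pp)
  have hJc := Finset.card_filter_add_card_filter_not (s := J) (p := pp)
  by_cases h1 : (I.filter pp).card < (J.filter pp).card
  · obtain ⟨e, he, he', hp⟩ := pav_aug (Exc_card N) (Exc_inter N) hJ.2 h1
    rw [Finset.mem_filter] at he
    refine ⟨e, he.1, fun h => he' (Finset.mem_filter.2 ⟨h, he.2⟩), ?_⟩
    refine ⟨?_, ?_⟩
    · rw [Finset.filter_insert, if_neg (by simpa using he.2)]
      exact hI.1
    · rw [Finset.filter_insert, if_pos he.2]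
      exact hp
  · have h2 : (I.filter (fun x => ¬ pp x)).card < (J.filter (fun x => ¬ pp x)).card := by omega
    obtain ⟨e, he, he', hp⟩ := injOn_aug _ _ _ hI.1 hJ.1 h2
    rw [Finset.mem_filter] at he
    refine ⟨e, he.1, fun h => he' (Finset.mem_filter.2 ⟨h, he.2⟩), ?_⟩
    refine ⟨?_, ?_⟩
    · rw [Finset.filter_insert, if_pos he.2]
      exact hp
    · rw [Finset.filter_insert, if_neg he.2]
      exact hI.2

/-- The first matroid. -/
def M1 (m : ℕ) : Matroid (El m) :=
  (IndepMatroid.ofFinset Set.univ (fun I : Finset (El m) => Set.InjOn cl1 (I : Set (El m)))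
    (by simp) (fun _ _ hJ h => hJ.mono (Finset.coe_subset.2 h))
    (fun I J hI hJ h => injOn_aug cl1 I J hI hJ h) (fun _ _ => Set.subset_univ _)).matroid

/-- The second matroid. -/
def M2 {m : ℕ} (hm : 1 ≤ m) (N : Set (Finset (Fin (2 * m)))) : Matroid (El m) :=
  (IndepMatroid.ofFinset Set.univ (fun I : Finset (El m) => Ind2 N I)
    (by
      refine ⟨by simp, by simp, ?_⟩
      intro h
      have := Exc_card N _ h
      simp at this
      omega)
    (fun _ _ hJ h => ind2_mono N hJ h)
    (fun I J hI hJ h => ind2_aug N hI hJ h) (fun _ _ => Set.subset_univ _)).matroid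

theorem M1_indep {m : ℕ} (I : Finset (El m)) :
    (M1 m).Indep (I : Set (El m)) ↔ Set.InjOn cl1 (I : Set (El m)) := by
  unfold M1
  rw [IndepMatroid.matroid_Indep, IndepMatroid.ofFinset_indep]

theorem M2_indep {m : ℕ} (hm : 1 ≤ m) (N : Set (Finset (Fin (2 * m)))) (I : Finset (El m)) :
    (M2 hm N).Indep (I : Set (El m)) ↔ Ind2 N I := by
  unfold M2
  rw [IndepMatroid.matroid_Indep, IndepMatroid.ofFinset_indep]

theorem M1_E (m : ℕ) : (M1 m).E = Set.univ := rfl

theorem M2_E {m : ℕ} (hm : 1 ≤ m) (N : Set (Finset (Fin (2 * m)))) :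
    (M2 hm N).E = Set.univ := rfl

end Pool.Agent.R547.CB
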